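import Pool.Agent.H.MP_128071_co.A

namespace Pool.Agent.Results.MP_128071_co.Embed
open Finset SimpleGraph

def Graceful {W : Type*} (T : SimpleGraph W) : Prop :=
  ∃ f : W → ℕ, Function.Injective f ∧ (∀ v, f v ≤ Nat.card T.edgeSet) ∧
    ∀ u v x y, T.Adj u v → T.Adj x y → Nat.dist (f u) (f v) = Nat.dist (f x) (f y) →
      s(u, v) = s(x, y)

def st (n : ℕ → ℕ) : ℕ → ℕ
  | 0 => 0
  | 1 => 0
  | l + 2 => st n l + n l - 1 + n (l + 1)

theorem result {V : Type*} [Fintype V] (G : SimpleGraph V) (hG : G.IsTree) :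
    ∃ (N : ℕ) (T : SimpleGraph (Fin (N + 1))), T.IsTree ∧ Graceful T ∧ G ⊑ T ∧
      Nat.card T.edgeSet + G.diam = 2 * Nat.card G.edgeSet := by
  classical
  obtain ⟨lvl, idx, par, n, n0, n1, l1, x1, x2, x3, p1, p2, p3, p4, nc⟩ :=
    H.MP_128071_co.layers G hG
  generalize G.diam = h at *
  have nz : n (h + 1) = 0 := by
    rw [nc, card_eq_zero, filter_eq_empty_iff]
    exact fun v _ hv => by have := l1 v; omega
  let s := st n
  have s2 : ∀ l ≤ h, s (l + 2) + 1 = s l + n l + n (l + 1) := fun l hl => by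
    have := n1 l hl
    show s l + n l - 1 + n (l + 1) + 1 = _
    omega
  have s0 : s 0 = 0 := rfl
  have s1 : s 1 = 0 := rfl
  clear_value s
  obtain ⟨c, c1, c2, c3, c4⟩ : ∃ c : ℕ → ℕ → ℕ,
      (∀ v l i, lvl v = l + 1 → idx (par v) < i → idx v < c l i) ∧
      (∀ v l i, lvl v = l + 1 → i ≤ idx (par v) → c l i ≤ idx v) ∧
      (∀ l i, i < n l → c l i = 0 ∨ c l i < n (l + 1)) ∧ ∀ l i j, i ≤ j → c l i ≤ c l j := by
    have cnt : ∀ v, idx v = #(univ.filter fun u => lvl u = lvl v ∧ idx u < idx v) := fun v => by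
      rw [← card_range (idx v)]
      refine (card_nbij idx (fun u hu => by simpa using (mem_filter.1 hu).2.2)
        (fun u hu w hw e => x3 _ _ ((mem_filter.1 hu).2.1.trans (mem_filter.1 hw).2.1.symm) e)
        fun i hi => ?_).symm
      have hi : i < idx v := by simpa using hi
      obtain ⟨u, h1, h2⟩ := x2 (lvl v) i (hi.trans (x1 v))
      exact ⟨u, by simp [h1, h2, hi], h2⟩
    have c2 : ∀ v l i, lvl v = l + 1 → i ≤ idx (par v) →
        #(univ.filter fun u => lvl u = l + 1 ∧ idx (par u) < i) ≤ idx v := fun v l i hv hi => by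
      rw [cnt v]
      exact card_le_card fun u hu => by
        simp only [mem_filter, mem_univ, true_and] at hu ⊢
        exact ⟨hu.1.trans hv.symm, p2 u v l hu.1 hv (by omega)⟩
    refine ⟨fun l i => #(univ.filter fun u => lvl u = l + 1 ∧ idx (par u) < i),
      fun v l i hv hi => ?_, c2, fun l i hi => ?_, fun l i j hij => card_le_card fun u hu => ?_⟩
    · rw [cnt v]
      refine card_lt_card ⟨fun u hu => ?_, fun hx => by
        simpa using hx (show v ∈ _ by simp [hv, hi])⟩
      simp only [mem_filter, mem_univ, true_and] at hu ⊢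
      refine ⟨hu.1.trans hv, not_le.1 fun h' => ?_⟩
      have := p2 v u l hv (hu.1.trans hv) (by omega)
      omega
    · by_cases hl : l < h
      · obtain ⟨v, h1, h2⟩ := p3 l hl
        exact Or.inr ((c2 v l i h1 (by omega)).trans_lt (h1 ▸ x1 v))
      · refine Or.inl (card_eq_zero.2 (filter_eq_empty_iff.2 fun v _ hv => ?_))
        have := l1 v; omega
    · simp only [mem_filter, mem_univ, true_and] at hu ⊢
      omega
  let E : ℕ → ℕ → ℕ → Prop := fun l x y => l ≤ h ∧
    ((∃ v, lvl v = l + 1 ∧ x = s l + idx (par v) ∧ y = s (l + 1) + idx v) ∨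
      ∃ i, 1 ≤ i ∧ i < n l ∧ x + 1 = s l + n l + c l i ∧ y + n l = s (l + 1) + i)
  have E1 : ∀ l x y, E l x y → s l + s (l + 1) ≤ x + y ∧ x + y < s (l + 1) + s (l + 2) := by
    rintro l x y ⟨hl, ⟨v, h1, rfl, rfl⟩ | ⟨i, h1, h2, h3, h4⟩⟩
    · have := s2 l hl
      have := h1 ▸ x1 v
      have := p1 v l h1 ▸ x1 (par v)
      omega
    · have := s2 l hl
      have := c3 l i h2
      omega
  have mono : ∀ k l, l + k ≤ h + 1 → s l + s (l + 1) ≤ s (l + k) + s (l + k + 1) := by
    intro k l
    induction k with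
    | zero => exact fun _ => le_rfl
    | succ k ih =>
      intro hk
      have := ih (by omega)
      have := s2 (l + k) (by omega)
      have := n1 (l + k) (by omega)
      show _ ≤ s (l + k + 1) + s (l + k + 2)
      omega
  have mono' : ∀ l l', l < l' → l' ≤ h + 1 → s (l + 1) + s (l + 2) ≤ s l' + s (l' + 1) := by
    intro l l' h1 h2
    obtain ⟨k, rfl⟩ := Nat.exists_eq_add_of_le (show l + 1 ≤ l' from h1)
    exact mono k (l + 1) h2
  have E2 : ∀ l x y l' x' y', E l x y → E l' x' y' → x + y = x' + y' →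
      l = l' ∧ x = x' ∧ y = y' := by
    intro l x y l' x' y' e e' hs
    have := E1 _ _ _ e
    have := E1 _ _ _ e'
    obtain rfl : l = l' := by
      rcases lt_trichotomy l l' with h1 | h1 | h1
      · have := mono' l l' h1 (e'.1.trans (Nat.le_succ _)); omega
      · exact h1
      · have := mono' l' l h1 (e.1.trans (Nat.le_succ _)); omega
    refine ⟨rfl, ?_⟩
    obtain ⟨-, ⟨v, h1, rfl, rfl⟩ | ⟨i, h1, h2, h3, h4⟩⟩ := e <;>
      obtain ⟨-, ⟨v', h1', rfl, rfl⟩ | ⟨i', h1', h2', h3', h4'⟩⟩ := e'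
    · have := p2 v v' l h1 h1'
      have := p2 v' v l h1' h1
      omega
    · have := c1 v l i' h1
      have := c2 v l i' h1
      omega
    · have := c1 v' l i h1'
      have := c2 v' l i h1'
      omega
    · have := c4 l i i'
      have := c4 l i' i
      omega
  obtain ⟨N, hN⟩ : ∃ N, N = s (h + 1) + s (h + 2) := ⟨_, rfl⟩
  have E3 : ∀ l x y, E l x y → x + y < N := fun l x y e => by
    have := E1 _ _ _ e
    have := mono' l (h + 1) (Nat.lt_succ_of_le e.1) le_rfl
    have : s (h + 1 + 1) = s (h + 2) := rfl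
    omega
  let L : ℕ → ℕ → Fin (N + 1) := fun l x => Fin.ofNat _ (if l % 2 = 0 then x else N - x)
  have Lv : ∀ l x, x ≤ N → (L l x).1 = if l % 2 = 0 then x else N - x := fun l x hx => by
    simp only [L, Fin.val_ofNat]
    exact Nat.mod_eq_of_lt (by split_ifs <;> omega)
  have L2 : ∀ l x, L (l + 2) x = L l x := fun l x => by simp only [L, Nat.add_mod_right]
  have Ld : ∀ l x y, E l x y → Nat.dist (L l x) (L (l + 1) y) + (x + y) = N := fun l x y e => by
    have := E3 _ _ _ e
    rw [Lv _ _ (by omega), Lv _ _ (by omega), Nat.dist]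
    split_ifs <;> omega
  let T : SimpleGraph (Fin (N + 1)) :=
    fromEdgeSet {e | ∃ l x y, E l x y ∧ e = s(L l x, L (l + 1) y)}
  have A1 : ∀ l x y, E l x y → T.Adj (L l x) (L (l + 1) y) := fun l x y e =>
    (fromEdgeSet_adj _).2 ⟨⟨l, x, y, e, rfl⟩, fun h' => by
      have := Ld _ _ _ e
      have := E3 _ _ _ e
      rw [h', Nat.dist_self] at *
      omega⟩
  have A2 : ∀ u v, T.Adj u v → ∃ l x y, E l x y ∧ s(u, v) = s(L l x, L (l + 1) y) ∧
      Nat.dist u v + (x + y) = N := fun u v h' => by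
    obtain ⟨l, x, y, e, h1⟩ := ((fromEdgeSet_adj _).1 h').1
    refine ⟨l, x, y, e, h1, ?_⟩
    rcases Sym2.eq_iff.1 h1 with ⟨rfl, rfl⟩ | ⟨rfl, rfl⟩
    exacts [Ld _ _ _ e, by rw [Nat.dist_comm]; exact Ld _ _ _ e]
  have A3 : ∀ u v x y, T.Adj u v → T.Adj x y → Nat.dist u v = Nat.dist x y → s(u, v) = s(x, y) := by
    intro u v x y h1 h2 h3
    obtain ⟨l, a, b, e, h4, h5⟩ := A2 _ _ h1
    obtain ⟨l', a', b', e', h4', h5'⟩ := A2 _ _ h2
    obtain ⟨rfl, rfl, rfl⟩ := E2 _ _ _ _ _ _ e e' (by omega)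
    rw [h4, h4']
  have A4 : ∀ v l, lvl v = l + 1 →
      T.Adj (L (lvl (par v)) (s (lvl (par v)) + idx (par v))) (L (lvl v) (s (lvl v) + idx v)) := by
    intro v l hv
    rw [p1 v l hv, hv]
    exact A1 _ _ _ ⟨by have := l1 v; omega, Or.inl ⟨v, hv, rfl, rfl⟩⟩
  have R1 : ∀ l i, i < n l → T.Reachable (L 0 0) (L l (s l + i)) := by
    intro l
    induction l with
    | zero => intro i hi; rw [s0, show i = 0 by omega]
    | succ l ih =>
      intro i hi
      obtain ⟨v, h1, rfl⟩ := x2 _ i hi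
      have := A4 v l h1
      rw [p1 v l h1, h1] at this
      exact (ih _ (p1 v l h1 ▸ x1 _)).trans this.reachable
  have R2 : ∀ k l, l + k = h → ∀ i y, 1 ≤ i → i < n (l + 1) → y + 1 = s l + n l + i →
      T.Reachable (L 0 0) (L l y) := by
    intro k
    induction k with
    | zero => intro l hl i y _ hi; rw [show l = h from hl, nz] at hi; omega
    | succ k ih =>
      intro l hl i y h1 h2 h3
      have := s2 l (by omega)
      have a := A1 (l + 1) (s (l + 1) + n (l + 1) + c (l + 1) i - 1) y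
        ⟨by omega, Or.inr ⟨i, h1, h2, by omega, by show _ = s (l + 2) + i; omega⟩⟩
      rw [show l + 1 + 1 = l + 2 from rfl, L2] at a
      refine Reachable.trans ?_ a.reachable
      rcases Nat.eq_zero_or_pos (c (l + 1) i) with h4 | h4
      · rw [show s (l + 1) + n (l + 1) + c (l + 1) i - 1 = s (l + 1) + (n (l + 1) - 1) by omega]
        exact R1 _ _ (by omega)
      · exact ih (l + 1) (by omega) _ _ h4 ((c3 _ _ h2).resolve_left h4.ne') (by omega)
  have R3 : ∀ l ≤ h, (∀ x < s l + n l, T.Reachable (L 0 0) (L l x)) ∧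
      ∀ x < s (l + 1), T.Reachable (L 0 0) (L (l + 1) x) := by
    intro l
    induction l with
    | zero => exact fun _ => ⟨fun x hx => by rw [show x = 0 by omega], fun x (hx : x < s 1) => by omega⟩
    | succ l ih =>
      intro hl
      obtain ⟨h1, h2⟩ := ih (by omega)
      refine ⟨fun x hx => ?_, fun x (hx : x < s (l + 2)) => ?_⟩
      · by_cases h3 : x < s (l + 1)
        · exact h2 x h3
        · rw [show x = s (l + 1) + (x - s (l + 1)) by omega]
          exact R1 _ _ (by omega)
      · rw [show l + 1 + 1 = l + 2 from rfl, L2]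
        by_cases h3 : x < s l + n l
        · exact h1 x h3
        · have := s2 l (by omega)
          exact R2 (h - l) l (by omega) (x + 1 - (s l + n l)) x (by omega) (by omega) (by omega)
  have sh := s2 h le_rfl
  have hc : T.Connected := (connected_iff_exists_forall_reachable _).2 ⟨L 0 0, fun z => by
    obtain ⟨h1, h2⟩ := R3 h le_rfl
    have := z.2
    by_cases h3 : (if h % 2 = 0 then z.1 else N - z.1) < s h + n h
    · rw [show z = L h (if h % 2 = 0 then z.1 else N - z.1) from Fin.ext (by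
        rw [Lv _ _ (by omega)]; split_ifs <;> omega)]
      exact h1 _ h3
    · rw [show z = L (h + 1) (if h % 2 = 0 then N - z.1 else z.1) from Fin.ext (by
        rw [Lv _ _ (by split_ifs <;> omega)]; split_ifs <;> omega)]
      exact h2 _ (by split_ifs at h3 ⊢ <;> omega)⟩
  have ce : Nat.card T.edgeSet = N := by
    have h1 := hc.card_vert_le_card_edgeSet_add_one
    choose l x y e he using fun e : T.edgeSet => ((edgeSet_fromEdgeSet _).subset e.2).1
    have h2 := Nat.card_le_card_of_injective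
      (fun a => (⟨x a + y a, E3 _ _ _ (e a)⟩ : Fin N)) fun a b hab => by
        obtain ⟨h1, h2, h3⟩ := E2 _ _ _ _ _ _ (e a) (e b) (congrArg Fin.val hab)
        exact Subtype.ext (by rw [he a, he b, h1, h2, h3])
    simp only [Nat.card_fin] at h1 h2
    omega
  have m2 : ∀ l' ≤ h + 1, ∀ l < l', l % 2 = l' % 2 → s l + n l ≤ s l' := by
    intro l'
    induction l' using Nat.strong_induction_on with
    | _ l' ih =>
      intro h1 l h2 h3
      obtain ⟨k, rfl⟩ : ∃ k, l' = k + 2 := ⟨l' - 2, by omega⟩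
      have := s2 k (by omega)
      have := n1 (k + 1) (by omega)
      rcases (show l ≤ k by omega).eq_or_lt with rfl | h4
      · omega
      · have := ih k (by omega) (by omega) l h4 (by omega)
        omega
  have bd : ∀ v, (lvl v % 2 = h % 2 ∧ s (lvl v) + idx v ≤ s (h + 2)) ∨
      (lvl v % 2 ≠ h % 2 ∧ s (lvl v) + idx v < s (h + 1)) := fun v => by
    have := x1 v
    have := l1 v
    by_cases h2 : lvl v % 2 = h % 2
    · refine Or.inl ⟨h2, ?_⟩
      rcases (l1 v).eq_or_lt with h1 | h1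
      · rw [h1] at this ⊢; have := h1 ▸ x1 v; omega
      · have := m2 h (by omega) (lvl v) h1 h2
        have := n1 h le_rfl
        omega
    · have := m2 (h + 1) le_rfl (lvl v) (by omega) (by omega)
      exact Or.inr ⟨h2, by omega⟩
  refine ⟨N, T, isTree_iff_connected_and_card.2 ⟨hc, by rw [ce, Nat.card_fin]⟩,
    ⟨Fin.val, Fin.val_injective, fun v => (Nat.le_of_lt_succ v.2).trans ce.ge, A3⟩,
    ⟨⟨⟨fun v => L (lvl v) (s (lvl v) + idx v), fun {u v} h' => ?_⟩, fun u v h' => ?_⟩⟩, ?_⟩
  · obtain ⟨x, l, h1, h2⟩ := p4 u v h'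
    rcases Sym2.eq_iff.1 h2 with ⟨rfl, rfl⟩ | ⟨rfl, rfl⟩
    exacts [A4 _ l h1, (A4 _ l h1).symm]
  · have h1 : (L (lvl u) (s (lvl u) + idx u)).1 = L (lvl v) (s (lvl v) + idx v) := congrArg _ h'
    have b1 := bd u
    have b2 := bd v
    rw [Lv _ _ (by omega), Lv _ _ (by omega)] at h1
    have h3 : lvl u % 2 = lvl v % 2 ∧ s (lvl u) + idx u = s (lvl v) + idx v := by
      split_ifs at h1 <;> omega
    have := x1 u
    have := x1 v
    have h2 : lvl u = lvl v := by
      rcases lt_trichotomy (lvl u) (lvl v) with h4 | h4 | h4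
      · have := m2 (lvl v) (by have := l1 v; omega) (lvl u) h4 h3.1
        omega
      · exact h4
      · have := m2 (lvl u) (by have := l1 u; omega) (lvl v) h4 h3.1.symm
        omega
    refine x3 u v h2 ?_
    rw [h2] at h3
    omega
  · have h1 : ∀ l ≤ h + 1, s l + s (l + 1) + l + 1 = 2 * ∑ j ∈ range l, n j + n l := by
      intro l
      induction l with
      | zero => simp [s0, s1, n0]
      | succ l ih =>
        intro hl
        have := ih (by omega)
        have := s2 l (by omega)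
        rw [sum_range_succ]
        show s (l + 1) + s (l + 2) + _ + _ = _
        omega
    have h2 : Fintype.card V = ∑ j ∈ range (h + 1), n j := by
      rw [funext nc]
      exact card_eq_sum_card_fiberwise fun v _ => by simpa using Nat.lt_succ_of_le (l1 v)
    have h3 := (isTree_iff_connected_and_card.1 hG).2
    have h4 := h1 (h + 1) le_rfl
    rw [Nat.card_eq_fintype_card (α := V)] at h3
    have : s (h + 1 + 1) = s (h + 2) := rfl
    omega

end Pool.Agent.Results.MP_128071_co.Embed
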